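import Mathlib
import Pool.Agent.Helper5.Pg.Main
import Pool.Agent.Helper5.Pe.Inl1Pw
import Pool.Agent.Helper5.Pe.Inl1OfEbd
import Pool.Agent.Helper5.Pt.Taylor
import Pool.Agent.Helper5.Pa.Final
import Pool.Agent.Helper5.Pf.Final

set_option autoImplicit false

/-!
# Polynomial generators of radical weighted convolution algebras `L^1(ω)`: functions of finite
order at `0` and a family of flat functions, arbitrary radical weights

The notions (`IsWeight`, `IsRadical`, `InL1`, `cv`, `cpow`, `IsPolyGen`, `pw`) are defined in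
`Pool/Agent/Helper5/Pg/Defs.lean`.
-/

open MeasureTheory Set Filter Topology Pool.Agent.Helper5.PG

namespace Pool.Agent.Results.MP_0134b7_an.FiniteOrderAndFlat

/-- A radical weight: continuous, positive, submultiplicative on `[0,∞)`, `w(t)^{1/t} → 0`. -/
def IsRadicalWeight (w : ℝ → ℝ) : Prop := IsWeight w ∧ Helper5.PG.IsRadical w

/-- The criterion: `∫_1^∞ -log w(t) t^{-1-a/2} dt` diverges. -/
def Diverges (w : ℝ → ℝ) (a : ℝ) : Prop :=
  ¬ IntegrableOn (fun t : ℝ => -Real.log (w t) * t ^ (-(1 + a / 2))) (Ioi 1)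

/-- `f(t) = c t^{a-1} + b t^a + ∫_0^t (t-s)^a k(s) ds` for `t > 0`, with `c ≠ 0` and `k` measurable
of exponential growth. -/
def HasOrder (a : ℝ) (f : ℝ → ℂ) : Prop :=
  ∃ (c b : ℂ) (k : ℝ → ℂ), c ≠ 0 ∧ Measurable k ∧
    (∃ C m : ℝ, ∀ t, 0 < t → ‖k t‖ ≤ C * Real.exp (m * t)) ∧
    ∀ t, 0 < t → f t = c * ((t ^ (a - 1) : ℝ) : ℂ) + b * ((t ^ a : ℝ) : ℂ) +
      ∫ s in (0:ℝ)..t, (((t - s) ^ a : ℝ) : ℂ) * k s

/-- `f` is of class `C^{n+2}`, its derivative of order `n+2` has exponential growth, and `f` has a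
zero of order exactly `n` at `0`. -/
def SmoothOrder (n : ℕ) (f : ℝ → ℂ) : Prop :=
  ContDiff ℝ (n + 2 : ℕ) f ∧ (∀ j < n, iteratedDeriv j f 0 = 0) ∧ iteratedDeriv n f 0 ≠ 0 ∧
    ∃ C m : ℝ, ∀ t, 0 < t → ‖iteratedDeriv (n + 2) f t‖ ≤ C * Real.exp (m * t)

/-- The function `t^{-3/2} e^{-c/t} e^{γt}`. -/
noncomputable def flat (c : ℝ) (γ : ℂ) (t : ℝ) : ℂ :=
  ((t ^ (-(3 / 2) : ℝ) * Real.exp (-(c / t)) : ℝ) : ℂ) * Complex.exp (γ * t)

theorem smooth_hasOrder (n : ℕ) (f : ℝ → ℂ) (hf : SmoothOrder n f) : HasOrder (n + 1) f := by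
  obtain ⟨h1, h2, h3, C, m, h4⟩ := hf
  refine ⟨iteratedDeriv n f 0 / (n.factorial : ℂ), iteratedDeriv (n + 1) f 0 /
    ((n + 1).factorial : ℂ), fun s => iteratedDeriv (n + 2) f s / ((n + 1).factorial : ℂ),
    div_ne_zero h3 (by exact_mod_cast n.factorial_ne_zero), ?_, ?_, ?_⟩
  · exact (h1.continuous_iteratedDeriv' (n + 2)).measurable.div_const _
  · refine ⟨C, m, fun t ht => ?_⟩
    rw [norm_div, Complex.norm_natCast]
    refine (div_le_self (norm_nonneg _) ?_).trans (h4 t ht)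
    exact_mod_cast (n + 1).factorial_pos
  · exact fun t ht => taylor_form n f h1 h2 t ht

theorem result :
    (∀ w : ℝ → ℝ, IsRadicalWeight w →
      -- (1) criterion for all functions of order `a ≥ 1`
      (∀ (a : ℝ) (f : ℝ → ℂ), 1 ≤ a → HasOrder a f →
        InL1 w f ∧ (IsPolyGen w f ↔ Diverges w a)) ∧
      -- (2) in particular for smooth functions with a zero of finite order `n` at `0`
      (∀ (n : ℕ) (f : ℝ → ℂ), SmoothOrder n f →
        InL1 w f ∧ (IsPolyGen w f ↔ Diverges w (n + 1))) ∧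
      -- (3) the functions `t^{a-1} e^{ct}`, `a > 0`
      (∀ a : ℝ, 0 < a → ∀ c : ℂ,
        InL1 w (pw a c) ∧ (IsPolyGen w (pw a c) ↔ Diverges w a)) ∧
      -- (4) the criterion always holds for `a ≤ 2`
      (∀ a : ℝ, 0 < a → a ≤ 2 → Diverges w a) ∧
      -- (5) the flat functions `t^{-3/2} e^{-c/t} e^{γt}`, `c > 0`, are never generators
      (∀ c : ℝ, 0 < c → ∀ γ : ℂ, InL1 w (flat c γ) ∧ ¬ IsPolyGen w (flat c γ))) ∧
    -- (6) for the weights `exp(-t^p)`, `p > 1`, the criterion reads `a ≤ 2p`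
    (∀ p : ℝ, 1 < p → IsRadicalWeight (fun t : ℝ => Real.exp (-(t ^ p))) ∧
      ∀ a : ℝ, 0 < a → (Diverges (fun t : ℝ => Real.exp (-(t ^ p))) a ↔ a ≤ 2 * p)) := by
  refine ⟨?_, ?_⟩
  · rintro w ⟨hw, hr⟩
    have key : ∀ (a : ℝ) (f : ℝ → ℂ), 1 ≤ a → HasOrder a f →
        InL1 w f ∧ (IsPolyGen w f ↔ Diverges w a) := by
      rintro a f ha ⟨c, b, k, hc, hk, hkb, hf⟩
      refine ⟨?_, general_iff_any w hw hr a f k c b ha hc hk hkb hf⟩
      obtain ⟨C, m, k1, hk1, he⟩ := form_eq a f k c b hc hk hkb hf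
      obtain ⟨⟨C', m', hF⟩, _⟩ := lap_FF a ha (b / c) C m k1 hk1
      have h1 := (inl1_of_ebd w hw hr _ _ (mul_nonneg (norm_nonneg c) hF.nonneg) _ (hF.smul c)).1
      unfold InL1 at h1 ⊢
      refine h1.congr_fun (fun t ht => ?_) measurableSet_Ioi
      simp only
      rw [he t ht]
    refine ⟨key, fun n f hf => ?_, fun a ha c => ?_, fun a ha ha2 => small_a w hw hr a ha ha2,
      fun c hc γ => ⟨flatf_inl1 w hw hr c hc γ, flatf_not_gen w hw c hc γ⟩⟩
    · exact key ((n : ℝ) + 1) f (by linarith [n.cast_nonneg (α := ℝ)]) (smooth_hasOrder n f hf)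
    · exact ⟨inl1_pw w hw hr a ha c, pw_iff w hw hr a ha c⟩
  · intro p hp
    obtain ⟨hw, hr⟩ := expw_weight p hp
    obtain ⟨_, _, h3⟩ := expw_reg p hp
    exact ⟨⟨hw, hr⟩, h3⟩

end Pool.Agent.Results.MP_0134b7_an.FiniteOrderAndFlat
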