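import Mathlib
import Pool.Agent.Helper5.Pg.Main
import Pool.Agent.Helper5.Pe.Inl1Pw
import Pool.Agent.Helper5.Pk.GenOfInt
import Pool.Agent.Helper5.Pk.NotGenInt
import Pool.Agent.Helper5.Pk.SmallA
import Pool.Agent.Helper5.Pk.Smooth

set_option autoImplicit false

/-!
# Polynomial generators of radical weighted convolution algebras `L^1(ω)`

The notions (`IsWeight`, `IsRadical`, `InL1`, `cv`, `cpow`, `IsPolyGen`, `pw`) are defined in
`Pool/Agent/Helper5/Pg/Defs.lean`.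
-/

open MeasureTheory Set Filter Topology Pool.Agent.Helper5.PG

namespace Pool.Agent.Results.MP_0134b7_an.PowersAndSmooth

/-- (1) A sharp criterion for the functions `t^{a-1} e^{ct}` and regular radical weights;
(2) all radical weights, `a ≤ 2`; (3) the weights `exp(-t^p)`;
(4), (5) smooth functions `f` with `f(0) ≠ 0`, or `f(0) = 0 ≠ f'(0)`, and all radical weights. -/
theorem result :
    (∀ w : ℝ → ℝ, IsWeight w → Helper5.PG.IsRadical w → AntitoneOn w (Ici 0) →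
      ConvexOn ℝ univ (fun s : ℝ => -Real.log (w (Real.exp s))) →
      ∀ a : ℝ, 0 < a → ∀ c : ℂ,
        InL1 w (pw a c) ∧
        (IsPolyGen w (pw a c) ↔
          ¬ IntegrableOn (fun t : ℝ => -Real.log (w t) * t ^ (-(1 + a / 2))) (Ioi 1))) ∧
    (∀ w : ℝ → ℝ, IsWeight w → Helper5.PG.IsRadical w → ∀ a : ℝ, 0 < a → a ≤ 2 → ∀ c : ℂ,
      IsPolyGen w (pw a c)) ∧
    (∀ p : ℝ, 1 < p →
      IsWeight (fun t : ℝ => Real.exp (-(t ^ p))) ∧
      Helper5.PG.IsRadical (fun t : ℝ => Real.exp (-(t ^ p))) ∧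
      ∀ a : ℝ, 0 < a → ∀ c : ℂ,
        InL1 (fun t : ℝ => Real.exp (-(t ^ p))) (pw a c) ∧
        (IsPolyGen (fun t : ℝ => Real.exp (-(t ^ p))) (pw a c) ↔ a ≤ 2 * p)) ∧
    (∀ w : ℝ → ℝ, IsWeight w → Helper5.PG.IsRadical w → ∀ (f k : ℝ → ℂ) (c b : ℂ), c ≠ 0 → Measurable k →
      (∃ C m : ℝ, ∀ t, 0 < t → ‖k t‖ ≤ C * Real.exp (m * t)) →
      (∀ t, 0 < t → f t = c + b * t + ∫ s in (0:ℝ)..t, ((t - s : ℝ) : ℂ) * k s) →
      IsPolyGen w f) ∧
    (∀ w : ℝ → ℝ, IsWeight w → Helper5.PG.IsRadical w → ∀ (f k : ℝ → ℂ) (c b b' : ℂ), c ≠ 0 →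
      Measurable k →
      (∃ C m : ℝ, ∀ t, 0 < t → ‖k t‖ ≤ C * Real.exp (m * t)) →
      (∀ t, 0 < t → f t = c * t + b * (t : ℂ) ^ 2 / 2 + b' * (t : ℂ) ^ 3 / 6 +
        ∫ s in (0:ℝ)..t, ((t - s : ℝ) : ℂ) ^ 3 / 6 * k s) →
      IsPolyGen w f) := by
  refine ⟨fun w hw hr ha hcx a ha0 c => ⟨inl1_pw w hw hr a ha0 c, ?_, ?_⟩, ?_, ?_, ?_, ?_⟩
  · intro h hint
    rcases le_or_gt a 2 with h2 | h2
    · exact small_a w hw hr a ha0 h2 hint
    · exact not_gen_int w hw ha a h2 c hint h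
  · exact fun hint => gen_of_int w hw hr hcx a ha0 c hint
  · exact fun w hw hr a ha ha2 c => gen_radical w hw hr a ha ha2 c
  · intro p hp
    obtain ⟨hw, hr⟩ := expw_weight p hp
    exact ⟨hw, hr, fun a ha c => ⟨inl1_pw _ hw hr a ha c, expw_iff p hp a ha c⟩⟩
  · exact fun w hw hr f k c b hc hk hkb hf => smooth_one w hw hr f k c b hc hk hkb hf
  · exact fun w hw hr f k c b b' hc hk hkb hf => smooth_two w hw hr f k c b b' hc hk hkb hf

end Pool.Agent.Results.MP_0134b7_an.PowersAndSmooth
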